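import Pool.Agent.Helper31.BQ.Stmts2

/-!
# BQ, row FL: limits exist and are unique
-/

set_option autoImplicit false

namespace Pool.Agent.Helper13.BQ

open Filter Topology Pool.Agent.Helper31.BQ

universe u

variable {E : Type u} [NormedAddCommGroup E] [NormedSpace ℝ E]

theorem fl_lift (S : Submodule ℝ E) (v : E ⧸ S) {ε : ℝ} (hε : 0 < ε) :
    ∃ z : E, S.mkQ z = v ∧ ‖z‖ < ‖v‖ + ε := by
  obtain ⟨z, hz, hz2⟩ := Submodule.Quotient.norm_mk_lt v hε
  exact ⟨z, hz, hz2⟩

theorem fl_le (S : Submodule ℝ E) (z : E) : ‖S.mkQ z‖ ≤ ‖z‖ := Submodule.Quotient.norm_mk_le S z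

theorem fl_mono {S T : Submodule ℝ E} (h : S ≤ T) (z : E) : ‖T.mkQ z‖ ≤ ‖S.mkQ z‖ := by
  refine le_of_forall_pos_le_add fun ε hε => ?_
  obtain ⟨w, hw, hw2⟩ := fl_lift S (S.mkQ z) hε
  have h1 : w - z ∈ T := by
    refine h ?_
    have : S.mkQ (w - z) = 0 := by rw [map_sub, hw, sub_self]
    rwa [Submodule.mkQ_apply, Submodule.Quotient.mk_eq_zero] at this
  have h2 : T.mkQ z = T.mkQ w := by
    symm
    rw [← sub_eq_zero, ← map_sub, Submodule.mkQ_apply, Submodule.Quotient.mk_eq_zero]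
    exact h1
  rw [h2]
  exact (fl_le T w).trans hw2.le

theorem fl_exists (M : ℕ → Submodule ℝ E) (hM : Antitone M) (hP : PP E M) (φ : ∀ n, E ⧸ M n)
    (hφ : φ ∈ XX hM) : ∃ y : E, LimTo φ y := by
  obtain ⟨hcl, hfin, -, hco⟩ := hP
  obtain ⟨h1, h2⟩ := hφ
  choose x hx hx2 using fun n => fl_lift (M n) (φ n) one_pos
  set d : ℕ → ℝ := fun n => ‖rs hM n (φ (n + 1)) - φ n‖ with hd
  have hsum : Summable d := summable_of_sum_range_le (fun n => norm_nonneg _) h2
  have hstep : ∀ j, (M j).mkQ (x (j + 1) - x j) = rs hM j (φ (j + 1)) - φ j := by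
    intro j
    rw [map_sub, hx j, ← hx (j + 1)]
    rfl
  have hstep2 : ∀ m j, m ≤ j → dist ((M m).mkQ (x j)) ((M m).mkQ (x (j + 1))) ≤ d j := by
    intro m j hmj
    rw [dist_comm, dist_eq_norm, ← map_sub]
    refine (fl_mono (hM hmj) _).trans (le_of_eq ?_)
    rw [hstep]
  have hlim : ∀ m, ∃ v : E ⧸ M m, Tendsto (fun j => (M m).mkQ (x j)) atTop (𝓝 v) := by
    intro m
    haveI := hcl m
    haveI := hfin m
    haveI : CompleteSpace (E ⧸ M m) := FiniteDimensional.complete ℝ _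
    have hc : CauchySeq (fun j => (M m).mkQ (x (j + m))) := by
      refine cauchySeq_of_dist_le_of_summable (fun j => d (j + m)) (fun j => ?_)
        ((summable_nat_add_iff m).2 hsum)
      have := hstep2 m (j + m) (by omega)
      rwa [show j + m + 1 = j.succ + m by omega] at this
    obtain ⟨v, hv⟩ := cauchySeq_tendsto_of_complete hc
    exact ⟨v, (tendsto_add_atTop_iff_nat (f := fun j => (M m).mkQ (x j)) m).1 hv⟩
  obtain ⟨y, hy⟩ := hco x 2 (fun j => by
    have := hx2 j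
    linarith [h1 j]) hlim
  refine ⟨y, ?_⟩
  have hb : ∀ n, ‖(M n).mkQ y - φ n‖ ≤ ∑' k, d (k + n) := by
    intro n
    have hy' : Tendsto (fun j => (M n).mkQ (x (j + n))) atTop (𝓝 ((M n).mkQ y)) :=
      (tendsto_add_atTop_iff_nat (f := fun j => (M n).mkQ (x j)) n).2 (hy n)
    have h3 := dist_le_tsum_of_dist_le_of_tendsto (f := fun j => (M n).mkQ (x (j + n)))
      (fun j => d (j + n)) (fun j => by
        have := hstep2 n (j + n) (by omega)
        rwa [show j + n + 1 = j.succ + n by omega] at this)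
      ((summable_nat_add_iff n).2 hsum) hy' 0
    simp only [zero_add] at h3
    rw [hx n, dist_comm, dist_eq_norm] at h3
    exact h3
  exact squeeze_zero (fun n => norm_nonneg _) hb (tendsto_sum_nat_add d)

theorem fl_unique (M : ℕ → Submodule ℝ E) (hM : Antitone M) (hP : PP E M) (φ : ∀ n, E ⧸ M n)
    (y y' : E) (hy : LimTo φ y) (hy' : LimTo φ y') : y = y' := by
  obtain ⟨-, -, hno, -⟩ := hP
  by_contra hne
  have hpos : 0 < ‖y - y'‖ := norm_pos_iff.2 (sub_ne_zero.2 hne)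
  obtain ⟨n0, hn0⟩ := hno (y - y') (‖y - y'‖ / 2) (by positivity)
  have h0 : Tendsto (fun n => ‖(M n).mkQ (y - y')‖) atTop (𝓝 0) := by
    have h1 : Tendsto (fun n => ‖(M n).mkQ y - φ n‖ + ‖(M n).mkQ y' - φ n‖) atTop (𝓝 0) := by
      simpa using Tendsto.add hy hy'
    refine squeeze_zero (fun n => norm_nonneg _) (fun n => ?_) h1
    have h2 : (M n).mkQ (y - y') = ((M n).mkQ y - φ n) - ((M n).mkQ y' - φ n) := by
      rw [map_sub]
      abel
    rw [h2]
    exact norm_sub_le _ _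
  have h3 : ∀ n ≥ n0, ‖y - y'‖ / 2 ≤ ‖(M n).mkQ (y - y')‖ := by
    intro n hn
    refine le_of_forall_pos_le_add fun ε hε => ?_
    obtain ⟨z, hz, hz2⟩ := fl_lift (M n) ((M n).mkQ (y - y')) hε
    have h4 : (y - y') - z ∈ M n0 := by
      refine hM hn ?_
      have : (M n).mkQ ((y - y') - z) = 0 := by rw [map_sub, hz, sub_self]
      rwa [Submodule.mkQ_apply, Submodule.Quotient.mk_eq_zero] at this
    have h5 := hn0 z h4
    linarith
  have h6 := ge_of_tendsto h0 (eventually_atTop.2 ⟨n0, h3⟩)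
  linarith

theorem st_FL : ST_FL.{u} := by
  intro E _ _ M hM hP
  exact ⟨fun φ hφ => fl_exists M hM hP φ hφ, fun φ y y' => fl_unique M hM hP φ y y'⟩

end Pool.Agent.Helper13.BQ
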